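import Mathlib
import Pool.Agent.Helper70.HB.TB
import Pool.Agent.Helper70.HB.TC
import Pool.Agent.Helper70.HB.TD
import Pool.Agent.Helper70.HB.RB
import Pool.Agent.Helper70.HB.NB

namespace Pool.Agent.Results.MP_1dc56d_ag.SmallDegrees

open Pool.Agent.Helper70.HA Pool.Agent.Helper70.HB

/-- Let `d` be `2, 3, 4, 5` or `7`, let `k` be a field of characteristic zero and let `F` be the
function field of the cyclic cover `y ^ d = ∏ l_e(1, x) ^ (m_e)` of `ℙ^n`, where the `l_e` are
linear forms and the multiplicities `m_e` are ARBITRARY (not divisible by `d`, one of them prime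
to `d`, and `d ∣ ∑ m_e`). For `0 < j < d` let `wt d m j e` be `d` times the coefficient
`1 - {j m_e / d}` (or `0` if `d ∣ j m_e`) of the hyperplane `e` in the boundary `Δ_j` of the
`j`-th eigenspace, and suppose that all the pairs `(ℙ^n, Δ_j)` are klt away from the empty
intersection (for instance that the hyperplanes are in general position). Then `F` is rational if
and only if it is unirational, if and only if `deg Δ_j < n + 1` for all `0 < j < d`. -/
theorem result {k F : Type*} [Field k] [CharZero k] [Field F] [Algebra k F] {n d : ℕ}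
    (hn : 1 ≤ n) (hd : d = 2 ∨ d = 3 ∨ d = 4 ∨ d = 5 ∨ d = 7)
    {E : Type*} [Fintype E] [DecidableEq E] (l : E → Fin (n + 1) → k)
    (m : E → ℕ) (hm : ∀ e, ¬ d ∣ m e) (hm1 : ∃ e, (m e).Coprime d) (hsum : d ∣ ∑ e, m e)
    (hklt : ∀ j, 1 ≤ j → j < d → ∀ S : Finset E, S.Nonempty → rk l S ≤ n →
      ∑ e ∈ S, wt d m j e < d * rk l S)
    (x : Fin n → F) (hx : AlgebraicIndependent k x) (y : F)
    (hy : y ^ d = ∏ e, (algebraMap k F (l e 0) +
      ∑ i : Fin n, algebraMap k F (l e i.succ) * x i) ^ m e)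
    (hadj : IntermediateField.adjoin k (Set.range x ∪ {y}) = ⊤) :
    List.TFAE [
      ∃ m : ℕ, Nonempty (F ≃ₐ[k] FractionRing (MvPolynomial (Fin m) k)),
      ∃ m : ℕ, Nonempty (F →ₐ[k] FractionRing (MvPolynomial (Fin m) k)),
      ∀ j, 1 ≤ j → j < d → ∑ e, wt d m j e < d * (n + 1)] := by
  have hd2 : 2 ≤ d := by omega
  have hl0 : ∀ e, l e ≠ 0 := by
    intro e h0
    have h := hklt 1 le_rfl (by omega) {e} (Finset.singleton_nonempty e)
    have hr : rk l {e} = 0 := by
      rw [rk, Finset.coe_singleton, Set.image_singleton, h0, Submodule.span_zero_singleton]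
      exact finrank_bot k _
    rw [hr] at h
    exact absurd (h (Nat.zero_le _)) (by omega)
  have hr := isRk_rk l hl0
  tfae_have 1 → 2 := by
    rintro ⟨m, ⟨e⟩⟩
    exact ⟨m, ⟨e.toAlgHom⟩⟩
  tfae_have 2 → 3 := by
    rintro ⟨m', ⟨φ⟩⟩ j hj1 hjd
    by_contra hcon
    push Not at hcon
    refine not_unirational_of_wt (L := FractionRing (MvPolynomial (Fin m') k)) (m' := m') hn hd2 l
      hl0 m hsum j (hklt j hj1 hjd) hcon (fun i => φ (x i)) (hx.map' φ.injective) (φ y) ?_
    rw [← map_pow, hy, map_prod]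
    apply Finset.prod_congr rfl
    intro e _
    simp only [map_pow, map_add, map_sum, map_mul, AlgHom.commutes]
  tfae_have 3 → 1 := by
    intro h
    have hS : ∀ x ∈ (Finset.univ : Finset E).val.map m, ¬ d ∣ x := by
      intro x hx
      obtain ⟨e, _, rfl⟩ := Multiset.mem_map.mp hx
      exact hm e
    have hex : ∃ j, 1 ≤ j ∧ j < d ∧ j.Coprime d ∧
        Dec d (((Finset.univ : Finset E).val.map m).map (fun x => (j * x) % d)) := by
      by_cases h7 : d = 7
      · subst h7
        obtain ⟨j, h1, h2, h3⟩ := dec_seven _ hS hsum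
        refine ⟨j, h1, h2, ?_, h3⟩
        interval_cases j <;> decide
      · exact dec_small (by omega) _ hS hsum
    obtain ⟨j, hj1, hjd, hjc, hdec⟩ := hex
    rw [Multiset.map_map] at hdec
    obtain ⟨P, hP⟩ := exists_partition_of_dec (by omega) _ _ hdec
    have hrn : ∀ S, rk l S ≤ n + 1 := by
      intro S
      have := Submodule.finrank_le (Submodule.span k (l '' (S : Set E)))
      rwa [Module.finrank_fin_fun] at this
    have hgood := good2_of_tight hr hd2 hrn m hm hm1 j hjc P hP (hklt j hj1 hjd) (h j hj1 hjd)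
    exact rational_of_good2 hd2 l hl0 m hgood x hx y hy hadj
  tfae_finish

end Pool.Agent.Results.MP_1dc56d_ag.SmallDegrees
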